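import Pool.Agent.GT.StmtsD

/-! Squad GT, row D_STR: the primes of the common factor. -/

set_option autoImplicit false

namespace Pool.Agent.GT.D.H38

open Pool.Agent.GT.D

noncomputable section

theorem near {p : ℕ} (hp : p.Prime) {a b : ℤ} (ha : a ≠ 0)
    (h : (p : ℤ) ^ (padicValInt p a + 1) ∣ b - a) :
    vl p b = vl p a ∧ ul p b = ul p a := by
  have : Fact p.Prime := ⟨hp⟩
  have hp0 : (p : ℤ) ≠ 0 := by exact_mod_cast hp.ne_zero
  set v := padicValInt p a with hv
  have hav : (p : ℤ) ^ v ∣ a := (padicValInt_dvd_iff v a).2 (Or.inr le_rfl)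
  have hav' : ¬ (p : ℤ) ^ (v + 1) ∣ a := by
    rw [padicValInt_dvd_iff]
    push Not
    exact ⟨ha, by omega⟩
  obtain ⟨c, hc⟩ := h
  have hbv : (p : ℤ) ^ v ∣ b := by
    have h1 : b = a + (p : ℤ) ^ v * (p * c) := by
      rw [pow_succ] at hc
      linear_combination hc
    rw [h1]
    exact dvd_add hav (dvd_mul_right _ _)
  have hbv' : ¬ (p : ℤ) ^ (v + 1) ∣ b := by
    intro h1
    apply hav'
    have h2 : a = b - (p : ℤ) ^ (v + 1) * c := by linear_combination -hc
    rw [h2]
    exact dvd_sub h1 (dvd_mul_right _ _)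
  have hb0 : b ≠ 0 := by
    rintro rfl
    exact hbv' (dvd_zero _)
  have hvb : padicValInt p b = v := by
    have h1 : v ≤ padicValInt p b := by
      rcases (padicValInt_dvd_iff v b).1 hbv with h | h
      · exact absurd h hb0
      · exact h
    have h2 : ¬ v + 1 ≤ padicValInt p b := fun h => hbv' ((padicValInt_dvd_iff _ b).2 (Or.inr h))
    omega
  refine ⟨?_, ?_⟩
  · unfold vl
    rw [hvb]
  · have hun : un p b = un p a + p * c := by
      unfold un
      rw [hvb, ← hv]
      have h1 : b = a + (p : ℤ) ^ v * (p * c) := by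
        rw [pow_succ] at hc
        linear_combination hc
      rw [h1, Int.add_mul_ediv_left _ _ (pow_ne_zero _ hp0)]
    have hcast : ((un p b : ℤ) : ZMod p) = ((un p a : ℤ) : ZMod p) := by
      rw [hun]
      push_cast
      rw [ZMod.natCast_self]
      ring
    unfold ul
    rw [hcast]

theorem tri3 : ∀ i k : Fin 3, k = i ∨ k = i + 1 ∨ k = i + 2 := by decide

theorem d_str (hadd : AddStmt) (hval : ValStmt) : StrStmt := by
  intro e r s p i hT hp hp2 hdiv hn1 hn2 hne
  have : Fact p.Prime := ⟨hp⟩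
  have hpp : Prime (p : ℤ) := Nat.prime_iff_prime_int.1 hp
  have hp0 : (p : ℤ) ≠ 0 := hpp.ne_zero
  have hvl : Adf (vl p) := hadd.1 p hp
  have hul : Adf (ul p) := hadd.2.1 p hp hp2
  have hX : ∀ j k, Xc e r s k = Xc e r s j + (e j - e k) * s ^ 2 := fun j k => by
    unfold Xc
    ring
  -- the product is a square
  have hprod : ∀ f : ℤ → ZMod 2, Adf f →
      f (Xc e r s i) + f (Xc e r s (i + 1)) + f (Xc e r s (i + 2)) = 0 := by
    intro f hf
    obtain ⟨a, ha⟩ := hT.sq
    have h0 : Xc e r s 0 * Xc e r s 1 * Xc e r s 2 ≠ 0 :=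
      mul_ne_zero (mul_ne_zero (hT.ne 0) (hT.ne 1)) (hT.ne 2)
    have ha0 : a ≠ 0 := by
      rintro rfl
      rw [mul_zero] at ha
      exact h0 ha
    have h1 : f (Xc e r s 0) + f (Xc e r s 1) + f (Xc e r s 2) = 0 := by
      rw [← hf.mul _ _ (hT.ne 0) (hT.ne 1), ← hf.mul _ _ (mul_ne_zero (hT.ne 0) (hT.ne 1))
        (hT.ne 2), ha, hf.sq ha0]
    fin_cases i
    · exact h1
    · show f (Xc e r s 1) + f (Xc e r s 2) + f (Xc e r s 0) = 0
      rw [← h1]; ring
    · show f (Xc e r s 2) + f (Xc e r s 0) + f (Xc e r s 1) = 0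
      rw [← h1]; ring
  have htri : ∀ k : Fin 3, k = i ∨ k = i + 1 ∨ k = i + 2 := tri3 i
  by_cases hA : ∃ k, ¬ (p : ℤ) ∣ Xc e r s k
  · -- some component is a unit
    left
    obtain ⟨k0, hk0⟩ := hA
    have hcong : ∀ k, ((Xc e r s k : ℤ) : ZMod p) = ((Xc e r s k0 : ℤ) : ZMod p) := by
      intro k
      rw [hX k0 k, ZMod.intCast_eq_intCast_iff_dvd_sub]
      obtain ⟨c, hc⟩ := hdiv k0 k
      refine ⟨-(c * s ^ 2), ?_⟩
      rw [hc]
      ring
    have hunit : ∀ k, ¬ (p : ℤ) ∣ Xc e r s k := by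
      intro k hk
      apply hk0
      rw [← ZMod.intCast_zmod_eq_zero_iff_dvd] at hk ⊢
      rw [← hcong k, hk]
    have hulk : ∀ k, ul p (Xc e r s k) = ul p (Xc e r s k0) := by
      intro k
      unfold ul
      rw [(hval.1 p _ hp (hunit k)).2, (hval.1 p _ hp (hunit k0)).2, hcong k]
    have h3 := hprod (ul p) hul
    rw [hulk i, hulk (i + 1), hulk (i + 2), CharTwo.add_self_eq_zero, zero_add] at h3
    exact fun k => ⟨(hval.1 p _ hp (hunit k)).1, by rw [hulk k, h3]⟩
  · -- all components are divisible by p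
    push Not at hA
    have hps : ¬ (p : ℤ) ∣ s := by
      intro h1
      have h2 : (p : ℤ) ∣ r := by
        have h3 : r = Xc e r s 0 + e 0 * s * s := by unfold Xc; ring
        rw [h3]
        exact dvd_add (hA 0) (Dvd.dvd.mul_left h1 _)
      exact hpp.not_isUnit (hT.cop.isUnit_of_dvd' h2 h1)
    have hs2 : s ^ 2 ≠ 0 := pow_ne_zero _ hT.s0
    -- class of a product with a square
    have hsq : ∀ f : ℤ → ZMod 2, Adf f → ∀ x : ℤ, x ≠ 0 → f (x * s ^ 2) = f x := by
      intro f hf x hx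
      rw [hf.mul _ _ hx hs2, pow_two, hf.sq hT.s0, add_zero]
    have hP : ∀ j k, ¬ (p : ℤ) ^ 2 ∣ e j - e k → (p : ℤ) ^ 2 ∣ Xc e r s j →
        vl p (Xc e r s k) = vl p (e j - e k) ∧ ul p (Xc e r s k) = ul p (e j - e k) := by
      intro j k h1 h2
      have h0 : e j - e k ≠ 0 := by
        intro h3
        rw [h3] at h1
        exact h1 (dvd_zero _)
      have h3 : ¬ (p : ℤ) ^ 2 ∣ (e j - e k) * s ^ 2 := by
        intro h4
        apply h1
        exact (IsCoprime.pow (hpp.coprime_iff_not_dvd.2 hps)).dvd_of_dvd_mul_right h4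
      have h4 : padicValInt p ((e j - e k) * s ^ 2) + 1 = 2 := by
        have h5 : ¬ 2 ≤ padicValInt p ((e j - e k) * s ^ 2) := fun h =>
          h3 ((padicValInt_dvd_iff _ _).2 (Or.inr h))
        have h6 : 1 ≤ padicValInt p ((e j - e k) * s ^ 2) := by
          have h7 : (p : ℤ) ^ 1 ∣ (e j - e k) * s ^ 2 := by
            rw [pow_one]
            exact Dvd.dvd.mul_right (hdiv j k) _
          rcases (padicValInt_dvd_iff _ _).1 h7 with h8 | h8
          · exact absurd h8 (mul_ne_zero h0 hs2)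
          · exact h8
        omega
      have h5 := near hp (a := (e j - e k) * s ^ 2) (b := Xc e r s k) (mul_ne_zero h0 hs2) (by
        rw [h4, hX j k, add_sub_cancel_right]
        exact h2)
      rw [hsq _ hvl _ h0, hsq _ hul _ h0] at h5
      exact h5
    have hQ : ∀ j k, e j - e k ≠ 0 → (p : ℤ) ^ (padicValInt p (Xc e r s k) + 1) ∣ Xc e r s j →
        vl p (Xc e r s k) = vl p (e j - e k) ∧ ul p (Xc e r s k) = ul p (e j - e k) := by
      intro j k h0 h1
      have h5 := near hp (a := Xc e r s k) (b := (e j - e k) * s ^ 2) (hT.ne k) (by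
        rw [hX j k, sub_add_cancel_right, dvd_neg]
        rw [← hX j k]
        exact h1)
      rw [hsq _ hvl _ h0, hsq _ hul _ h0] at h5
      exact ⟨h5.1.symm, h5.2.symm⟩
    have hv1 : ∀ k, 1 ≤ padicValInt p (Xc e r s k) := by
      intro k
      have h7 : (p : ℤ) ^ 1 ∣ Xc e r s k := by
        rw [pow_one]
        exact hA k
      rcases (padicValInt_dvd_iff _ _).1 h7 with h8 | h8
      · exact absurd h8 (hT.ne k)
      · exact h8
    have hn1' : ¬ (p : ℤ) ^ 2 ∣ e i - e (i + 1) := fun h => hn1 (by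
      rw [← neg_sub]; exact (dvd_neg).2 h)
    have hn2' : ¬ (p : ℤ) ^ 2 ∣ e i - e (i + 2) := fun h => hn2 (by
      rw [← neg_sub]; exact (dvd_neg).2 h)
    right
    by_cases hB : (p : ℤ) ^ 2 ∣ Xc e r s i
    · refine ⟨i, fun k hk => ?_⟩
      rcases htri k with rfl | rfl | rfl
      · exact absurd rfl hk
      · exact hP i (i + 1) hn1' hB
      · exact hP i (i + 2) hn2' hB
    · -- the valuation of X i is 1
      have hvi : padicValInt p (Xc e r s i) = 1 := by
        have h5 : ¬ 2 ≤ padicValInt p (Xc e r s i) := fun h =>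
          hB ((padicValInt_dvd_iff _ _).2 (Or.inr h))
        have := hv1 i
        omega
      have h3 := hprod (vl p) hvl
      have hne' : padicValInt p (Xc e r s (i + 1)) ≠ padicValInt p (Xc e r s (i + 2)) := by
        intro h4
        unfold vl at h3
        rw [hvi, h4, add_assoc, CharTwo.add_self_eq_zero, add_zero] at h3
        exact absurd h3 (by decide)
      rcases lt_or_gt_of_ne hne' with hlt | hlt
      · -- v (X (i+1)) < v (X (i+2)) : j = i + 2
        have hd : (p : ℤ) ^ (padicValInt p (Xc e r s (i + 1)) + 1) ∣ Xc e r s (i + 2) :=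
          (padicValInt_dvd_iff _ _).2 (Or.inr hlt)
        have hd2 : (p : ℤ) ^ 2 ∣ Xc e r s (i + 2) :=
          (padicValInt_dvd_iff _ _).2 (Or.inr (by have := hv1 (i + 1); omega))
        refine ⟨i + 2, fun k hk => ?_⟩
        rcases htri k with rfl | rfl | rfl
        · exact hP (k + 2) k hn2 hd2
        · exact hQ (i + 2) (i + 1) (sub_ne_zero.2 (Ne.symm hne)) hd
        · exact absurd rfl hk
      · have hd : (p : ℤ) ^ (padicValInt p (Xc e r s (i + 2)) + 1) ∣ Xc e r s (i + 1) :=
          (padicValInt_dvd_iff _ _).2 (Or.inr hlt)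
        have hd2 : (p : ℤ) ^ 2 ∣ Xc e r s (i + 1) :=
          (padicValInt_dvd_iff _ _).2 (Or.inr (by have := hv1 (i + 2); omega))
        refine ⟨i + 1, fun k hk => ?_⟩
        rcases htri k with rfl | rfl | rfl
        · exact hP (k + 1) k hn1 hd2
        · exact absurd rfl hk
        · exact hQ (i + 1) (i + 2) (sub_ne_zero.2 hne) hd

end

end Pool.Agent.GT.D.H38
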