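import Pool.Agent.GT.StmtsD

/-! Squad GT, row D_SYP: the old part of the class vanishes. -/

set_option autoImplicit false

namespace Pool.Agent.GT.D.H38

open Pool.Agent.GT.D

noncomputable section

variable (ι : Type) [Fintype ι]

theorem tri3' : ∀ i k : Fin 3, k = i ∨ k = i + 1 ∨ k = i + 2 := by decide

theorem d_syp (hfex : FexStmt ι) (hloc : LocStmt ι) (htwo : TwoStmt) (hdff : DffStmt ι)
    (hadd : AddStmt) (hval : ValStmt) : SypStmt ι := by
  intro a s r bl m st p h hP x w hT hr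
  obtain ⟨hl1, hl2, -, hl4⟩ := hloc a s r bl m st p h hP x w hT
  obtain ⟨-, -, hd3, hd4⟩ := hdff a s r bl m st p h hP
  have hF := hfex a s r bl m st p h hP x w hT hr
  set e : Fin 3 → ℤ := re a s r bl m st p with he
  set K : ℤ := Kn s r st p with hK
  set B : Fin 3 → ℤ := Bn a bl m p with hB
  have hBs : B 0 + B 1 + B 2 = 0 := hP.new.sum
  have hrt := rt_sub (K := K) hBs
  have he10 : e 1 - e 0 = -(K * B 2) := (hrt 0).1
  have he20 : e 2 - e 0 = K * B 1 := (hrt 0).2.1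
  have hv2 : Adf (vl 2) := hadd.1 2 Nat.prime_two
  have h4 : Adf l4 := hadd.2.2.1
  have h8 : Adf l8 := hadd.2.2.2.1
  -- the values at the new primes
  have hpl : ∀ l, l4 (p l) = 0 ∧ l8 (p l) = 0 := by
    intro l
    have h1 := hP.new.m8 l
    have h2 : ((p l : ℕ) : ℤ) % 8 = 1 := by omega
    obtain ⟨h3, h4'⟩ := hval.2.2.2.2.1 (p l) (by omega)
    rw [h3, h4', if_neg (by omega), if_neg (by omega)]
    exact ⟨rfl, rfl⟩
  have hm1 : l8 (-1) = 0 := by
    obtain ⟨-, h3⟩ := hval.2.2.2.2.1 (-1) (by decide)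
    rw [h3, if_neg (by decide)]
  have hvm1 : vl 2 (-1) = 0 := hval.2.2.2.2.2.2.2.1
  have hneg : ∀ f : ℤ → ZMod 2, Adf f → f (-1) = 0 → ∀ n : ℤ, n ≠ 0 → f (-n) = f n := by
    intro f hf h1 n hn
    have h2 := hf.mul (-1) n (by decide) hn
    rw [neg_one_mul, h1, zero_add] at h2
    exact h2
  have hKB2 : K * B 2 ≠ 0 := (hd3 2).2.2.1
  -- the prime 2
  have h64 : (64 : ℤ) ∣ e 1 - e 0 := by
    rw [he10, dvd_neg]
    have h1 : (64 : ℤ) ∣ B 2 := by
      rw [hB]
      unfold Bn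
      exact Dvd.dvd.mul_right hP.old.two _
    exact Dvd.dvd.mul_left h1 _
  have hne10 : e 1 ≠ e 0 := by
    intro h1
    apply hKB2
    rw [← neg_eq_zero, ← he10, h1, sub_self]
  obtain ⟨ht1, ht2, ht3⟩ := htwo e x w hT (by rw [he20]; exact hd4) h64 hne10
  have hsys : Sys a s (2 * s * r) (sg (Xc e x w 2)) (fun j => vl 2 (Xc e x w j))
      (fun q => vl q (Xc e x w (bq a q + 1))) := by
    refine ⟨?_, ?_, ?_, ?_, ?_⟩
    · -- the product is a square
      obtain ⟨b, hb⟩ := hT.sq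
      have h0 : Xc e x w 0 * Xc e x w 1 * Xc e x w 2 ≠ 0 :=
        mul_ne_zero (mul_ne_zero (hT.ne 0) (hT.ne 1)) (hT.ne 2)
      have hb0 : b ≠ 0 := by
        rintro rfl
        rw [mul_zero] at hb
        exact h0 hb
      show vl 2 (Xc e x w 0) + vl 2 (Xc e x w 1) + vl 2 (Xc e x w 2) = 0
      rw [← hv2.mul _ _ (hT.ne 0) (hT.ne 1), ← hv2.mul _ _ (mul_ne_zero (hT.ne 0) (hT.ne 1))
        (hT.ne 2), hb, hv2.sq hb0]
    · have h1 := hF l4 h4 2
      rw [ht1, Finset.sum_eq_zero (fun l _ => by rw [(hpl l).1, mul_zero]), add_zero] at h1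
      exact h1.symm
    · have h1 := hF l8 h8 2
      rw [ht2, Finset.sum_eq_zero (fun l _ => by rw [(hpl l).2, mul_zero]), add_zero] at h1
      exact h1.symm
    · have h1 := hF l8 h8 0
      rw [Finset.sum_eq_zero (fun l _ => by rw [(hpl l).2, mul_zero]), add_zero] at h1
      show Fm a s (sg (Xc e x w 2)) (fun j => vl 2 (Xc e x w j))
        (fun q => vl q (Xc e x w (bq a q + 1))) l8 0 + vl 2 (Xc e x w 0) =
        vl 2 (Xc e x w 2) * (l8 (2 * s * r * a 2) + vl 2 (2 * s * r * a 2))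
      rw [← h1, ht3, he10, hneg _ h8 hm1 _ hKB2, hneg _ hv2 hvm1 _ hKB2, (hd3 2).1, (hd3 2).2.1]
    · intro q hq
      have h1 := hF (ul q) (hadd.2.1 q ?_ ?_) (bq a q)
      · rw [Finset.sum_eq_zero (fun l _ => by
          rw [hP.new.uo l q (Finset.mem_union_right _ hq), mul_zero]), add_zero] at h1
        rw [← h1, (hl1 q hq).2.2]
      · have h2 := (Finset.mem_filter.1 hq).1
        exact Nat.prime_of_mem_primeFactors h2
      · exact (Finset.mem_filter.1 hq).2.1
  obtain ⟨hε, hy, hη⟩ := hP.cho.inj _ _ _ hsys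
  refine ⟨fun i => ?_, hy, fun q hq i => ?_, fun f hf i => ?_⟩
  · rw [hl4 i, hε]
    split_ifs <;> rfl
  · rcases Finset.mem_union.1 hq with h1 | h1
    · exact hl2 q h1 i
    · obtain ⟨c1, c2, -⟩ := hl1 q h1
      have c3 : vl q (Xc e x w (bq a q + 1)) = 0 := hη q h1
      rcases tri3' (bq a q) i with h2 | h2 | h2
      · rw [h2]; exact c1
      · rw [h2]; exact c3
      · rw [h2, c2]; exact c3
  · rw [hF f hf i]
    have h1 : Fm a s (sg (Xc e x w 2)) (fun j => vl 2 (Xc e x w j))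
        (fun q => vl q (Xc e x w (bq a q + 1))) f i = 0 := by
      unfold Fm
      beta_reduce
      have h2 : (if i = ra a s then (0 : ZMod 2) else sg (Xc e x w 2)) = 0 := by
        rw [hε]
        split_ifs <;> rfl
      have h3 : vl 2 (Xc e x w i) = 0 := hy i
      rw [h2, h3, Finset.sum_eq_zero (fun q hq => ?_)]
      · ring
      · have h4' : vl q (Xc e x w (bq a q + 1)) = 0 := hη q hq
        rw [h4', ite_self, zero_mul]
    rw [h1, zero_add]

end

end Pool.Agent.GT.D.H38
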