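import Pool.Agent.GT.StmtsE

/-!
# Squad GT, block E, row E_EON: torsion of order prime to `q` is integral at a good prime `q`
-/

set_option autoImplicit false

namespace Pool.Agent.GT.OF.H38

section norm

variable (q : ℕ) [Fact q.Prime]

theorem i_add {a b : ℚ} (ha : padicNorm q a ≤ 1) (hb : padicNorm q b ≤ 1) :
    padicNorm q (a + b) ≤ 1 := le_trans padicNorm.nonarchimedean (max_le ha hb)

theorem i_sub {a b : ℚ} (ha : padicNorm q a ≤ 1) (hb : padicNorm q b ≤ 1) :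
    padicNorm q (a - b) ≤ 1 := le_trans padicNorm.sub (max_le ha hb)

theorem i_mul {a b : ℚ} (ha : padicNorm q a ≤ 1) (hb : padicNorm q b ≤ 1) :
    padicNorm q (a * b) ≤ 1 := by
  rw [padicNorm.mul]
  exact mul_le_one₀ ha (padicNorm.nonneg _) hb

theorem j_add {a b : ℚ} (ha : padicNorm q a < 1) (hb : padicNorm q b < 1) :
    padicNorm q (a + b) < 1 := lt_of_le_of_lt padicNorm.nonarchimedean (max_lt ha hb)

theorem j_sub {a b : ℚ} (ha : padicNorm q a < 1) (hb : padicNorm q b < 1) :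
    padicNorm q (a - b) < 1 := lt_of_le_of_lt padicNorm.sub (max_lt ha hb)

theorem j_mul {a b : ℚ} (ha : padicNorm q a < 1) (hb : padicNorm q b ≤ 1) :
    padicNorm q (a * b) < 1 := by
  rw [padicNorm.mul]
  exact mul_lt_one_of_nonneg_of_lt_one_left (padicNorm.nonneg _) ha hb

theorem i_int (z : ℤ) : padicNorm q (z : ℚ) ≤ 1 := padicNorm.of_int z

theorem j_unit {U : ℚ} {m : ℤ} (h : padicNorm q (U - (m : ℚ)) < 1) (hm : ¬ (q : ℤ) ∣ m) :
    padicNorm q U = 1 := by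
  have h1 : padicNorm q (m : ℚ) = 1 := (padicNorm.int_eq_one_iff m).mpr hm
  have h2 : U = (U - (m : ℚ)) + (m : ℚ) := by ring
  rw [h2, padicNorm.add_eq_max_of_ne (by rw [h1]; exact ne_of_lt h), h1]
  exact max_eq_right h.le

theorem jstep {ρ' ρ'' ρ t : ℚ} (β m : ℤ) (ht : padicNorm q t < 1)
    (h1 : padicNorm q (ρ'' - ((m : ℚ) - 1) ^ 2) < 1) (h2 : padicNorm q (ρ - (m : ℚ) ^ 2) < 1)
    (hm : ¬ (q : ℤ) ∣ m - 1)
    (e : ρ' * ρ'' * (1 - β * t ^ 2 * ρ) ^ 2 = (ρ - 1) ^ 2) :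
    padicNorm q (ρ' - ((m : ℚ) + 1) ^ 2) < 1 := by
  have hI : ∀ z : ℤ, padicNorm q (z : ℚ) ≤ 1 := i_int q
  have hρ : padicNorm q ρ ≤ 1 := by
    have : ρ = (ρ - (m : ℚ) ^ 2) + ((m ^ 2 : ℤ) : ℚ) := by push_cast; ring
    rw [this]
    exact i_add q h2.le (hI _)
  have hβ : padicNorm q (β : ℚ) ≤ 1 := hI β
  have hw : padicNorm q ((1 - β * t ^ 2 * ρ) ^ 2 - 1) < 1 := by
    have : (1 - β * t ^ 2 * ρ) ^ 2 - 1 = t * (t * (β * ρ) * (t * (t * (β * ρ)) - ((2 : ℤ) : ℚ))) := by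
      push_cast; ring
    rw [this]
    have h3 := i_mul q ht.le (i_mul q hβ hρ)
    exact j_mul q ht (i_mul q h3 (i_sub q (i_mul q ht.le h3) (hI 2)))
  have hw1 : padicNorm q ((1 - β * t ^ 2 * ρ) ^ 2) ≤ 1 := by
    have : (1 - β * t ^ 2 * ρ) ^ 2 = ((1 - β * t ^ 2 * ρ) ^ 2 - 1) + ((1 : ℤ) : ℚ) := by
      push_cast; ring
    rw [this]
    exact i_add q hw.le (hI 1)
  have hU : padicNorm q (ρ'' * (1 - β * t ^ 2 * ρ) ^ 2 - (((m - 1) ^ 2 : ℤ) : ℚ)) < 1 := by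
    have : ρ'' * (1 - β * t ^ 2 * ρ) ^ 2 - (((m - 1) ^ 2 : ℤ) : ℚ) =
        (ρ'' - ((m : ℚ) - 1) ^ 2) * (1 - β * t ^ 2 * ρ) ^ 2 +
          ((1 - β * t ^ 2 * ρ) ^ 2 - 1) * (((m - 1) ^ 2 : ℤ) : ℚ) := by
      push_cast; ring
    rw [this]
    exact j_add q (j_mul q h1 hw1) (j_mul q hw (hI _))
  have hU1 : padicNorm q (ρ'' * (1 - β * t ^ 2 * ρ) ^ 2) = 1 := by
    apply j_unit q hU
    intro h
    exact hm (Int.Prime.dvd_pow' Fact.out h)
  have hfin : padicNorm q ((ρ' - ((m : ℚ) + 1) ^ 2) * (ρ'' * (1 - β * t ^ 2 * ρ) ^ 2)) < 1 := by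
    have : (ρ' - ((m : ℚ) + 1) ^ 2) * (ρ'' * (1 - β * t ^ 2 * ρ) ^ 2) =
        (ρ - (m : ℚ) ^ 2) * (ρ + ((m ^ 2 - 2 : ℤ) : ℚ)) -
          (ρ'' * (1 - β * t ^ 2 * ρ) ^ 2 - (((m - 1) ^ 2 : ℤ) : ℚ)) * (((m + 1) ^ 2 : ℤ) : ℚ) := by
      push_cast
      linear_combination e
    rw [this]
    exact j_sub q (j_mul q h2 (i_add q hρ (hI _))) (j_mul q hU (hI _))
  rw [padicNorm.mul, hU1, mul_one] at hfin
  exact hfin

theorem jdup {ρ t : ℚ} (c₁ c₂ : ℤ) (ht : padicNorm q t < 1)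
    (e : 4 * (1 - c₁ * t) * (1 - c₂ * t) = ρ * (1 - c₁ * c₂ * t ^ 2) ^ 2) :
    padicNorm q (ρ - 4) < 1 := by
  have hI : ∀ z : ℤ, padicNorm q (z : ℚ) ≤ 1 := i_int q
  have h1 : padicNorm q ((1 - c₁ * c₂ * t ^ 2) ^ 2 - ((1 : ℤ) : ℚ)) < 1 := by
    have : (1 - c₁ * c₂ * t ^ 2) ^ 2 - ((1 : ℤ) : ℚ) =
        t * (t * ((c₁ * c₂ : ℤ) : ℚ) * (t * (t * ((c₁ * c₂ : ℤ) : ℚ)) - ((2 : ℤ) : ℚ))) := by
      push_cast; ring
    rw [this]
    have h3 := i_mul q ht.le (hI (c₁ * c₂))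
    exact j_mul q ht (i_mul q h3 (i_sub q (i_mul q ht.le h3) (hI 2)))
  have hU : padicNorm q ((1 - c₁ * c₂ * t ^ 2) ^ 2) = 1 := by
    apply j_unit q h1
    intro h
    have := Int.eq_one_of_dvd_one (by positivity) h
    have h2 : q = 1 := by exact_mod_cast this
    exact (Fact.out : q.Prime).one_lt.ne' h2
  have hfin : padicNorm q ((ρ - 4) * (1 - c₁ * c₂ * t ^ 2) ^ 2) < 1 := by
    have : (ρ - 4) * (1 - c₁ * c₂ * t ^ 2) ^ 2 =
        t * (t * ((4 * c₁ * c₂ : ℤ) : ℚ) - ((4 * (c₁ + c₂) : ℤ) : ℚ)) -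
          ((1 - c₁ * c₂ * t ^ 2) ^ 2 - ((1 : ℤ) : ℚ)) * ((4 : ℤ) : ℚ) := by
      push_cast
      linear_combination -e
    rw [this]
    exact j_sub q (j_mul q ht (i_sub q (i_mul q ht.le (hI _)) (hI _))) (j_mul q h1 (hI _))
  rw [padicNorm.mul, hU, mul_one] at hfin
  exact hfin

end norm

/-- the formal properties of the points of the curve, with a normalised first coordinate -/
structure Abx (F : Type) [Field F] (G : Type) [AddCommGroup G] (hs : G → F → Prop) (c₁ c₂ : F) :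
    Prop where
  idn : ∀ (Q R : G) (s₁ s₂ : F), hs Q s₁ → hs R s₂ → s₁ ≠ s₂ →
    ∃ s₃ s₄ : F, hs (Q + R) s₃ ∧ hs (Q - R) s₄ ∧
      s₃ * s₄ * (s₁ - s₂) ^ 2 = (s₁ * s₂ - c₁ * c₂) ^ 2
  dup : ∀ (Q : G) (s : F), hs Q s → s ≠ 0 → s ≠ c₁ → s ≠ c₂ → ∃ s' : F, hs (2 • Q) s' ∧
    s' * (4 * (s * (s - c₁) * (s - c₂))) = (s ^ 2 - c₁ * c₂) ^ 2
  eqn : ∀ (Q R : G) (s : F), hs Q s → hs R s → Q = R ∨ Q = -R
  uni : ∀ (Q : G) (s s' : F), hs Q s → hs Q s' → s' = s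
  zer : ∀ s : F, ¬ hs 0 s

/-- the multiple `m R` is affine with first coordinate about `r / m²` -/
def Pm (q : ℕ) {G : Type} [AddCommGroup G] (hs : G → ℚ → Prop) (R : G) (r : ℚ) (m : ℕ) : Prop :=
  ∃ t : ℚ, hs (m • R) t ∧ t ≠ 0 ∧ padicNorm q (r / t - (m : ℚ) ^ 2) < 1

theorem pm_le {q : ℕ} [Fact q.Prime] {r t : ℚ} {m : ℕ} (ht : t ≠ 0)
    (h : padicNorm q (r / t - (m : ℚ) ^ 2) < 1) : padicNorm q r ≤ padicNorm q t := by
  have h1 : padicNorm q (r / t) ≤ 1 := by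
    have : r / t = (r / t - (m : ℚ) ^ 2) + ((m ^ 2 : ℤ) : ℚ) := by push_cast; ring
    rw [this]
    exact i_add q h.le (i_int q _)
  rw [padicNorm.div] at h1
  have h2 : 0 < padicNorm q t := lt_of_le_of_ne (padicNorm.nonneg _) (padicNorm.nonzero ht).symm
  rwa [div_le_one h2] at h1

theorem kil_of_coprime {G : Type} [AddCommGroup G] {q n : ℕ} (hq : q.Prime) (hn : ¬ q ∣ n) {R : G}
    (h1 : q • R = 0) (h2 : n • R = 0) : R = 0 := by
  have h3 := Nat.dvd_gcd (addOrderOf_dvd_of_nsmul_eq_zero h1) (addOrderOf_dvd_of_nsmul_eq_zero h2)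
  rw [(Nat.Prime.coprime_iff_not_dvd hq).mpr hn] at h3
  have h4 := Nat.dvd_one.mp h3
  exact AddMonoid.addOrderOf_eq_one_iff.mp h4

theorem pm_step {q : ℕ} [Fact q.Prime] {G : Type} [AddCommGroup G] {hs : G → ℚ → Prop} {c₁ c₂ : ℤ}
    (A : Abx ℚ G hs (c₁ : ℚ) (c₂ : ℚ)) {R : G} {r : ℚ} (hR : hs R r) (hr : 1 < padicNorm q r) {n : ℕ}
    (hn : ¬ q ∣ n) (hnR : n • R = 0) (m : ℕ) (hm : m + 3 ≤ q) (P1 : Pm q hs R r (m + 1))
    (P2 : Pm q hs R r (m + 2)) : Pm q hs R r (m + 3) := by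
  have hqp : q.Prime := Fact.out
  obtain ⟨t', ht', ht'0, hJ'⟩ := P1
  obtain ⟨t, ht, ht0, hJ⟩ := P2
  have hr0 : r ≠ 0 := by
    rintro rfl
    rw [padicNorm.zero] at hr
    linarith
  have hne : t ≠ r := by
    rintro rfl
    rw [div_self hr0] at hJ
    have h1 : (1 : ℚ) - ((m + 2 : ℕ) : ℚ) ^ 2 = ((1 - (m + 2) ^ 2 : ℤ) : ℚ) := by push_cast; ring
    rw [h1, padicNorm.int_lt_one_iff] at hJ
    have h2 : (q : ℤ) ∣ ((m + 1 : ℕ) : ℤ) * ((m + 3 : ℕ) : ℤ) := by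
      have h3 : ((m + 1 : ℕ) : ℤ) * ((m + 3 : ℕ) : ℤ) = -(1 - ((m : ℤ) + 2) ^ 2) := by
        push_cast; ring
      rw [h3]
      exact (dvd_neg).mpr hJ
    rw [← Nat.cast_mul, Int.natCast_dvd_natCast, hqp.dvd_mul] at h2
    have h4 : q ∣ m + 3 := by
      rcases h2 with h2 | h2
      · exact absurd (Nat.le_of_dvd (by omega) h2) (by omega)
      · exact h2
    have h5 : m + 3 = q := le_antisymm hm (Nat.le_of_dvd (by omega) h4)
    rcases A.eqn ((m + 2) • R) R t ht hR with h6 | h6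
    · have h7 : (m + 1) • R = 0 := by
        have h8 : (m + 2) • R = (m + 1) • R + R := by rw [← succ_nsmul]
        rw [h8] at h6
        exact add_eq_right.mp h6
      rw [h7] at ht'
      exact A.zer _ ht'
    · have h7 : q • R = 0 := by
        rw [← h5, succ_nsmul, h6, neg_add_cancel]
      have h8 := kil_of_coprime hqp hn h7 hnR
      rw [h8] at hR
      exact A.zer _ hR
  obtain ⟨s₃, s₄, h3, h4, e⟩ := A.idn _ _ _ _ ht hR hne
  have h3' : hs ((m + 3) • R) s₃ := by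
    have : (m + 3) • R = (m + 2) • R + R := by rw [← succ_nsmul]
    rw [this]; exact h3
  have h4' : hs ((m + 1) • R) s₄ := by
    have : (m + 1) • R = (m + 2) • R - R := by
      have h8 : (m + 2) • R = (m + 1) • R + R := by rw [← succ_nsmul]
      rw [h8, add_sub_cancel_right]
    rw [this]; exact h4
  have h44 : s₄ = t' := A.uni _ _ _ ht' h4'
  rw [h44] at e
  have hle := pm_le ht0 hJ
  have hbig : 1 < padicNorm q (t * r) := by
    rw [padicNorm.mul]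
    nlinarith
  have htr : t * r - c₁ * c₂ ≠ 0 := by
    intro h
    have h5 : t * r = ((c₁ * c₂ : ℤ) : ℚ) := by push_cast; linarith
    rw [h5] at hbig
    exact absurd (i_int q (c₁ * c₂)) (not_le.mpr hbig)
  have hs3 : s₃ ≠ 0 := by
    rintro rfl
    apply htr
    have : (t * r - c₁ * c₂) ^ 2 = 0 := by rw [← e]; ring
    exact pow_eq_zero_iff (two_ne_zero) |>.mp this
  refine ⟨s₃, h3', hs3, ?_⟩
  have hti : padicNorm q (1 / r) < 1 := by
    rw [padicNorm.div, padicNorm.one, div_lt_one (by linarith)]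
    exact hr
  have key := jstep q (ρ' := r / s₃) (ρ'' := r / t') (ρ := r / t) (t := 1 / r) (c₁ * c₂)
    ((m : ℤ) + 2) hti (by
      have : ((((m : ℤ) + 2 : ℤ) : ℚ) - 1) ^ 2 = ((m + 1 : ℕ) : ℚ) ^ 2 := by push_cast; ring
      rw [this]; exact hJ') (by
      have : (((m : ℤ) + 2 : ℤ) : ℚ) ^ 2 = ((m + 2 : ℕ) : ℚ) ^ 2 := by push_cast; ring
      rw [this]; exact hJ) (by
      intro h
      have h5 : ((m : ℤ) + 2 - 1) = ((m + 1 : ℕ) : ℤ) := by push_cast; ring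
      rw [h5, Int.natCast_dvd_natCast] at h
      exact absurd (Nat.le_of_dvd (by omega) h) (by omega)) (by
      push_cast
      field_simp
      linear_combination -e)
  have : ((m + 3 : ℕ) : ℚ) ^ 2 = ((((m : ℤ) + 2 : ℤ) : ℚ) + 1) ^ 2 := by push_cast; ring
  rw [this]
  exact key

theorem pm_two {q : ℕ} [Fact q.Prime] {G : Type} [AddCommGroup G] {hs : G → ℚ → Prop} {c₁ c₂ : ℤ}
    (A : Abx ℚ G hs (c₁ : ℚ) (c₂ : ℚ)) {R : G} {r : ℚ} (hR : hs R r) (hr : 1 < padicNorm q r) :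
    Pm q hs R r 2 := by
  have hr0 : r ≠ 0 := by
    rintro rfl
    rw [padicNorm.zero] at hr
    linarith
  have hrc : ∀ c : ℤ, r ≠ c := by
    rintro c rfl
    exact absurd (i_int q c) (not_le.mpr hr)
  obtain ⟨s', h', e⟩ := A.dup R r hR hr0 (hrc _) (hrc _)
  have h1 : r ^ 2 - c₁ * c₂ ≠ 0 := by
    intro h
    have h5 : r * r = ((c₁ * c₂ : ℤ) : ℚ) := by push_cast; linarith
    have hbig : 1 < padicNorm q (r * r) := by
      rw [padicNorm.mul]
      nlinarith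
    rw [h5] at hbig
    exact absurd (i_int q (c₁ * c₂)) (not_le.mpr hbig)
  have hs0 : s' ≠ 0 := by
    rintro rfl
    apply h1
    have : (r ^ 2 - c₁ * c₂) ^ 2 = 0 := by rw [← e]; ring
    exact pow_eq_zero_iff (two_ne_zero) |>.mp this
  refine ⟨s', h', hs0, ?_⟩
  have hti : padicNorm q (1 / r) < 1 := by
    rw [padicNorm.div, padicNorm.one, div_lt_one (by linarith)]
    exact hr
  have key := jdup q (ρ := r / s') (t := 1 / r) c₁ c₂ hti (by
    field_simp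
    linear_combination e)
  have : ((2 : ℕ) : ℚ) ^ 2 = 4 := by norm_num
  rw [this]
  exact key

theorem core2 {q : ℕ} [Fact q.Prime] (hq2 : q ≠ 2) {G : Type} [AddCommGroup G]
    {hs : G → ℚ → Prop} {c₁ c₂ : ℤ}
    (A : Abx ℚ G hs (c₁ : ℚ) (c₂ : ℚ)) {R : G} {r : ℚ} (hR : hs R r) (hr : 1 < padicNorm q r) {n : ℕ}
    (hn : ¬ q ∣ n) (hnR : n • R = 0)
    (hmax : ∀ (j : ℕ) (t : ℚ), hs (j • R) t → padicNorm q t ≤ padicNorm q r) : False := by
  have hqp : q.Prime := Fact.out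
  have hq3 : 3 ≤ q := by
    have := hqp.two_le
    omega
  have hr0 : r ≠ 0 := by
    rintro rfl
    rw [padicNorm.zero] at hr
    linarith
  have claim : ∀ m : ℕ, m + 2 ≤ q → Pm q hs R r (m + 1) ∧ Pm q hs R r (m + 2) := by
    intro m
    induction m with
    | zero =>
      intro _
      refine ⟨⟨r, by rw [zero_add, one_nsmul]; exact hR, hr0, ?_⟩, pm_two A hR hr⟩
      rw [div_self hr0]
      norm_num
    | succ m ih =>
      intro hm
      obtain ⟨P1, P2⟩ := ih (by omega)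
      exact ⟨P2, pm_step A hR hr hn hnR m (by omega) P1 P2⟩
  obtain ⟨_, t, ht, ht0, hJ⟩ := claim (q - 2) (by omega)
  have h1 : q - 2 + 2 = q := by omega
  rw [h1] at ht hJ
  have h2 : padicNorm q (r / t) < 1 := by
    have h3 : r / t = (r / t - (q : ℚ) ^ 2) + (q : ℚ) * (q : ℚ) := by ring
    rw [h3]
    refine j_add q hJ (j_mul q ?_ ?_)
    · exact padicNorm.padicNorm_p_lt_one_of_prime
    · exact le_of_lt padicNorm.padicNorm_p_lt_one_of_prime
  rw [padicNorm.div, div_lt_one (lt_of_le_of_ne (padicNorm.nonneg _) (padicNorm.nonzero ht0).symm)]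
    at h2
  exact absurd (hmax q t ht) (not_le.mpr h2)

theorem core {q : ℕ} [Fact q.Prime] (hq2 : q ≠ 2) {G : Type} [AddCommGroup G]
    {hs : G → ℚ → Prop} {c₁ c₂ : ℤ}
    (A : Abx ℚ G hs (c₁ : ℚ) (c₂ : ℚ)) (Q : G) (n : ℕ) (hn : ¬ q ∣ n) (hnQ : n • Q = 0) (s : ℚ) (hsQ : hs Q s) :
    padicNorm q s ≤ 1 := by
  classical
  by_contra hbig
  rw [not_le] at hbig
  have hn0 : 0 < n := by
    rcases Nat.eq_zero_or_pos n with h | h
    · exact absurd (h ▸ dvd_zero q) hn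
    · exact h
  let f : ℕ → ℚ := fun k => if h : ∃ t, hs (k • Q) t then padicNorm q h.choose else 0
  have hf : ∀ (k : ℕ) (t : ℚ), hs (k • Q) t → f k = padicNorm q t := by
    intro k t ht
    have hex : ∃ t, hs (k • Q) t := ⟨t, ht⟩
    have h1 : f k = padicNorm q hex.choose := dif_pos hex
    rw [h1, A.uni _ _ _ ht hex.choose_spec]
  have hmod : ∀ k : ℕ, k • Q = (k % n) • Q := by
    intro k
    conv_lhs => rw [← Nat.div_add_mod k n]
    rw [add_nsmul, mul_nsmul, hnQ, nsmul_zero, zero_add]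
  have hfmod : ∀ k : ℕ, f k = f (k % n) := by
    intro k
    by_cases h : ∃ t, hs (k • Q) t
    · obtain ⟨t, ht⟩ := h
      rw [hf k t ht, hf (k % n) t (by rw [← hmod]; exact ht)]
    · have h' : ¬ ∃ t, hs ((k % n) • Q) t := by rw [← hmod]; exact h
      have h1 : f k = 0 := dif_neg h
      have h2 : f (k % n) = 0 := dif_neg h'
      rw [h1, h2]
  obtain ⟨k, _, hmax⟩ := Finset.exists_max_image (Finset.range n) f ⟨0, Finset.mem_range.mpr hn0⟩
  have hmax' : ∀ j : ℕ, f j ≤ f k := by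
    intro j
    rw [hfmod j]
    exact hmax _ (Finset.mem_range.mpr (Nat.mod_lt _ hn0))
  have h1 : f 1 = padicNorm q s := hf 1 s (by rw [one_nsmul]; exact hsQ)
  have hk : 1 < f k := lt_of_lt_of_le (by rw [h1]; exact hbig) (hmax' 1)
  have hex : ∃ t, hs (k • Q) t := by
    by_contra h
    have h2 : f k = 0 := dif_neg h
    rw [h2] at hk
    linarith
  obtain ⟨r, hr⟩ := hex
  have hfr := hf k r hr
  rw [hfr] at hk
  refine core2 hq2 A (R := k • Q) hr hk (n := n) hn ?_ ?_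
  · rw [smul_comm, hnQ, smul_zero]
  · intro j t ht
    rw [← mul_nsmul'] at ht
    rw [← hf _ t ht, ← hfr]
    exact hmax' _

/-- `core` with the group structure as an explicit argument -/
theorem core' {q : ℕ} (hq : Fact q.Prime) (hq2 : q ≠ 2) {G : Type} (inst : AddCommGroup G)
    {hs : G → ℚ → Prop} {c₁ c₂ : ℤ}
    (A : Abx ℚ G hs (c₁ : ℚ) (c₂ : ℚ)) (Q : G) (n : ℕ) (hn : ¬ q ∣ n) (hnQ : n • Q = 0) (s : ℚ)
    (hsQ : hs Q s) : padicNorm q s ≤ 1 := core hq2 A Q n hn hnQ s hsQ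

open Classical in
/-- the points of the curve have the formal properties -/
theorem abx_point (idn : IdnStmt) (dup : DupStmt) (F : Type) [Field F] (W : WeierstrassCurve F)
    (e : Fin 3 → F) (lam c₁ c₂ : F) (h : Rt3 W e) (hl : lam ≠ 0) (h1 : e 1 = e 0 + lam ^ 2 * c₁)
    (h2 : e 2 = e 0 + lam ^ 2 * c₂) :
    Abx F W.toAffine.Point (fun Q s => HasX Q (e 0 + lam ^ 2 * s)) c₁ c₂ := by
  obtain ⟨d1, d2, _, d4, d5, _, d7, _⟩ := dup F W e h
  have hl2 : lam ^ 2 ≠ 0 := pow_ne_zero 2 hl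
  have inj : ∀ s s' : F, e 0 + lam ^ 2 * s = e 0 + lam ^ 2 * s' → s = s' := fun s s' hss =>
    mul_left_cancel₀ hl2 (add_left_cancel hss)
  have surj : ∀ x : F, e 0 + lam ^ 2 * ((x - e 0) / lam ^ 2) = x := fun x => by
    rw [mul_div_cancel₀ _ hl2]; ring
  refine ⟨?_, ?_, ?_, ?_, ?_⟩
  · intro Q R s₁ s₂ hQ hR hne
    obtain ⟨x₃, x₄, h3, h4, E⟩ := idn F W e h Q R _ _ hQ hR (fun hss => hne (inj _ _ hss))
    have E0 := E 0
    rw [zero_add, zero_add, h1, h2] at E0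
    refine ⟨(x₃ - e 0) / lam ^ 2, (x₄ - e 0) / lam ^ 2, ?_, ?_, ?_⟩
    · show HasX _ (e 0 + lam ^ 2 * ((x₃ - e 0) / lam ^ 2))
      rw [surj]; exact h3
    · show HasX _ (e 0 + lam ^ 2 * ((x₄ - e 0) / lam ^ 2))
      rw [surj]; exact h4
    · field_simp
      apply mul_left_cancel₀ (pow_ne_zero 4 hl)
      linear_combination E0
  · intro Q s hQ hs0 hs1 hs2
    have hnt : 2 • Q ≠ 0 := by
      intro h0
      obtain ⟨i, hi⟩ := (d1 Q _ hQ).mp h0
      fin_cases i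
      · apply hs0
        have : lam ^ 2 * s = 0 := by
          have hi' : e 0 + lam ^ 2 * s = e 0 := hi
          linear_combination hi'
        exact (mul_eq_zero.mp this).resolve_left hl2
      · apply hs1
        have hi' : e 0 + lam ^ 2 * s = e 1 := hi
        rw [h1] at hi'
        exact inj _ _ hi'
      · apply hs2
        have hi' : e 0 + lam ^ 2 * s = e 2 := hi
        rw [h2] at hi'
        exact inj _ _ hi'
    obtain ⟨x', h3, E⟩ := d2 Q _ hQ hnt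
    have E0 := E 0
    rw [zero_add, zero_add, h1, h2] at E0
    refine ⟨(x' - e 0) / lam ^ 2, ?_, ?_⟩
    · show HasX _ (e 0 + lam ^ 2 * ((x' - e 0) / lam ^ 2))
      rw [surj]; exact h3
    · field_simp
      apply mul_left_cancel₀ (pow_ne_zero 6 hl)
      linear_combination E0
  · intro Q R s hQ hR
    exact d4 Q R _ hQ hR
  · intro Q s s' hQ hQ'
    exact inj _ _ ((d5 Q _ hQ).2.2 _ hQ')
  · intro s hs
    exact d7 _ hs

theorem e_eon (idn : IdnStmt) (dup : DupStmt) : EonStmt := by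
  intro q _ W ε lam D hq2 S _ Q n hn hkil x hx i
  have hl := S.lam0
  have hl2 : lam ^ 2 ≠ 0 := pow_ne_zero 2 hl
  have g0 : ε 1 - ε 2 = lam ^ 2 * (D 0 : ℚ) := S.dif 0
  have g1 : ε 2 - ε 0 = lam ^ 2 * (D 1 : ℚ) := S.dif 1
  have g2 : ε 0 - ε 1 = lam ^ 2 * (D 2 : ℚ) := S.dif 2
  have nz : ∀ i : Fin 3, lam ^ 2 * (D i : ℚ) ≠ 0 := fun i =>
    mul_ne_zero hl2 (Int.cast_ne_zero.mpr (S.D0 i))
  have n0 : ε 1 ≠ ε 2 := fun h => nz 0 (by rw [← g0, h, sub_self])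
  have n1 : ε 2 ≠ ε 0 := fun h => nz 1 (by rw [← g1, h, sub_self])
  have n2 : ε 0 ≠ ε 1 := fun h => nz 2 (by rw [← g2, h, sub_self])
  have hR : Rt3 W ε := by
    refine ⟨two_ne_zero, S.rts, ?_⟩
    intro i j hij
    fin_cases i <;> fin_cases j
    · exact absurd rfl hij
    · exact n2
    · exact n1.symm
    · exact n2.symm
    · exact absurd rfl hij
    · exact n0
    · exact n1
    · exact n0.symm
    · exact absurd rfl hij
  have A := abx_point idn dup ℚ W ε lam ((-D 2 : ℤ) : ℚ) ((D 1 : ℤ) : ℚ) hR hl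
    (by push_cast; linear_combination -g2) (by linear_combination g1)
  have hsQ : HasX Q (ε 0 + lam ^ 2 * ((x - ε 0) / lam ^ 2)) := by
    rw [mul_div_cancel₀ _ hl2, add_sub_cancel]
    exact hx
  have key := core' ‹Fact q.Prime› hq2 _ A Q n hn hkil ((x - ε 0) / lam ^ 2) hsQ
  have hall : padicNorm q ((x - ε i) / lam ^ 2) ≤ 1 := by
    fin_cases i
    · exact key
    · have : (x - ε 1) / lam ^ 2 = (x - ε 0) / lam ^ 2 + (D 2 : ℚ) := by
        field_simp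
        linear_combination g2
      show padicNorm q ((x - ε 1) / lam ^ 2) ≤ 1
      rw [this]
      exact i_add q key (i_int q _)
    · have : (x - ε 2) / lam ^ 2 = (x - ε 0) / lam ^ 2 - (D 1 : ℚ) := by
        field_simp
        linear_combination -g1
      show padicNorm q ((x - ε 2) / lam ^ 2) ≤ 1
      rw [this]
      exact i_sub q key (i_int q _)
  by_cases h0 : (x - ε i) / lam ^ 2 = 0
  · rw [h0, padicValRat.zero]
  · rw [padicNorm.eq_zpow_of_nonzero h0] at hall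
    by_contra hneg
    rw [not_le] at hneg
    have h1 : (1 : ℚ) < (q : ℚ) := by exact_mod_cast (Fact.out : q.Prime).one_lt
    exact absurd hall (not_le.mpr (one_lt_zpow₀ h1 (by omega)))

end Pool.Agent.GT.OF.H38
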