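import Pool.Agent.GT.StmtsE

/-!
# Squad GT, block E, row E_HTA: heights and rational functions
-/

set_option autoImplicit false

namespace Pool.Agent.GT.OF.H38

open Polynomial Height

/-- the homogenisation of degree `n` -/
noncomputable def hmg (n : ℕ) (p : ℚ[X]) : MvPolynomial (Fin 2) ℚ :=
  ∑ k ∈ Finset.range (n + 1),
    MvPolynomial.monomial (Finsupp.single 0 k + Finsupp.single 1 (n - k)) (p.coeff k)

theorem hmg_hom (n : ℕ) (p : ℚ[X]) : (hmg n p).IsHomogeneous n := by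
  unfold hmg
  apply MvPolynomial.IsHomogeneous.sum
  intro k hk
  apply MvPolynomial.isHomogeneous_monomial
  rw [Finset.mem_range] at hk
  simp only [map_add, Finsupp.degree_single]
  omega

theorem hmg_eval (n : ℕ) (p : ℚ[X]) (hp : p.natDegree ≤ n) (x : ℚ) :
    (hmg n p).eval ![x, 1] = p.eval x := by
  unfold hmg
  rw [Polynomial.eval_eq_sum_range' (Nat.lt_succ_of_le hp), map_sum]
  apply Finset.sum_congr rfl
  intro k _
  rw [MvPolynomial.eval_monomial, Finsupp.prod_add_index' (by simp) (by intros; rw [pow_add]),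
    Finsupp.prod_single_index (by simp), Finsupp.prod_single_index (by simp)]
  simp

theorem key1 (f g : ℚ[X]) (h : IsCoprime f g) (hd : g.natDegree ≤ f.natDegree)
    (h1 : 1 ≤ f.natDegree) (w : ℚ[X]) (hw : w.natDegree ≤ 2 * f.natDegree - 1) :
    ∃ u v : ℚ[X], u.natDegree ≤ f.natDegree - 1 ∧ v.natDegree ≤ f.natDegree - 1 ∧
      u * f + v * g = w := by
  obtain ⟨a, b, hab⟩ := h
  have hf : f ≠ 0 := by
    rintro rfl
    simp at h1
  have hv : ((w * b) % f).natDegree < f.natDegree := Polynomial.natDegree_mod_lt _ (by omega)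
  have hdm := EuclideanDomain.div_add_mod (w * b) f
  have huv : (w * a + (w * b / f) * g) * f + ((w * b) % f) * g = w := by
    have : w = w * (a * f + b * g) := by rw [hab, mul_one]
    linear_combination g * hdm - this
  refine ⟨w * a + (w * b / f) * g, (w * b) % f, ?_, by omega, huv⟩
  by_cases hu : w * a + (w * b / f) * g = 0
  · rw [hu]; simp
  · have h2 : ((w * a + (w * b / f) * g) * f).natDegree ≤ 2 * f.natDegree - 1 := by
      have h3 : (w * a + (w * b / f) * g) * f = w - ((w * b) % f) * g := by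
        linear_combination huv
      rw [h3]
      refine le_trans (Polynomial.natDegree_sub_le _ _) (max_le hw ?_)
      refine le_trans Polynomial.natDegree_mul_le ?_
      omega
    rw [Polynomial.natDegree_mul hu hf] at h2
    omega

theorem key2 (f g : ℚ[X]) (h : IsCoprime f g) (h1 : 1 ≤ max f.natDegree g.natDegree) (w : ℚ[X])
    (hw : w.natDegree ≤ 2 * max f.natDegree g.natDegree - 1) :
    ∃ u v : ℚ[X], u.natDegree ≤ max f.natDegree g.natDegree - 1 ∧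
      v.natDegree ≤ max f.natDegree g.natDegree - 1 ∧ u * f + v * g = w := by
  rcases le_total g.natDegree f.natDegree with hd | hd
  · rw [max_eq_left hd] at h1 hw ⊢
    exact key1 f g h hd h1 w hw
  · rw [max_eq_right hd] at h1 hw ⊢
    obtain ⟨u, v, hu, hv, huv⟩ := key1 g f h.symm hd h1 w hw
    exact ⟨v, u, hv, hu, by rw [add_comm]; exact huv⟩

theorem ht_eq (q : ℚ) : (Ht q : ℝ) = mulHeight₁ q := by
  rw [Rat.mulHeight₁_eq_max]
  unfold Ht
  push_cast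
  rfl

theorem e_hta : HtaStmt := by
  intro f g hfg h1
  set d := max f.natDegree g.natDegree with hd
  have hfd : f.natDegree ≤ d := le_max_left _ _
  have hgd : g.natDegree ≤ d := le_max_right _ _
  obtain ⟨u₀, v₀, hu₀, hv₀, h₀⟩ := key2 f g hfg h1 (X ^ (2 * d - 1)) (by rw [natDegree_X_pow])
  obtain ⟨u₁, v₁, hu₁, hv₁, h₁⟩ := key2 f g hfg h1 1 (by simp)
  rw [← hd] at hu₀ hv₀ hu₁ hv₁
  let p : Fin 2 → MvPolynomial (Fin 2) ℚ := ![hmg d f, hmg d g]
  have hp : ∀ i, (p i).IsHomogeneous d := by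
    intro i
    fin_cases i
    · exact hmg_hom d f
    · exact hmg_hom d g
  let qq : Fin 2 × Fin 2 → MvPolynomial (Fin 2) ℚ := fun a =>
    (![![hmg (d - 1) u₀, hmg (d - 1) v₀], ![hmg (d - 1) u₁, hmg (d - 1) v₁]] : Fin 2 → Fin 2 →
      MvPolynomial (Fin 2) ℚ) a.1 a.2
  have hq : ∀ a, (qq a).IsHomogeneous (d - 1) := by
    rintro ⟨i, j⟩
    fin_cases i <;> fin_cases j
    · exact hmg_hom _ u₀
    · exact hmg_hom _ v₀
    · exact hmg_hom _ u₁
    · exact hmg_hom _ v₁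
  obtain ⟨C₁, hC₁, H₁⟩ := mulHeight_eval_le' (K := ℚ) hp
  obtain ⟨C₂, hC₂, H₂⟩ := mulHeight_eval_ge' (K := ℚ) (N := d) hq
  have hrel : ∀ x : ℚ, ∀ k, ∑ j, (qq (k, j)).eval ![x, 1] * (p j).eval ![x, 1] =
      ((![x, 1] : Fin 2 → ℚ) k) ^ (d - 1 + d) := by
    intro x k
    rw [Fin.sum_univ_two]
    fin_cases k
    · show (hmg (d - 1) u₀).eval ![x, 1] * (hmg d f).eval ![x, 1] +
        (hmg (d - 1) v₀).eval ![x, 1] * (hmg d g).eval ![x, 1] = x ^ (d - 1 + d)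
      rw [hmg_eval _ _ hu₀, hmg_eval _ _ hv₀, hmg_eval _ _ hfd, hmg_eval _ _ hgd,
        ← Polynomial.eval_mul, ← Polynomial.eval_mul, ← Polynomial.eval_add, h₀]
      rw [Polynomial.eval_pow, Polynomial.eval_X]
      have : 2 * d - 1 = d - 1 + d := by omega
      rw [this]
    · show (hmg (d - 1) u₁).eval ![x, 1] * (hmg d f).eval ![x, 1] +
        (hmg (d - 1) v₁).eval ![x, 1] * (hmg d g).eval ![x, 1] = 1 ^ (d - 1 + d)
      rw [hmg_eval _ _ hu₁, hmg_eval _ _ hv₁, hmg_eval _ _ hfd, hmg_eval _ _ hgd,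
        ← Polynomial.eval_mul, ← Polynomial.eval_mul, ← Polynomial.eval_add, h₁]
      simp
  have hpx : ∀ x : ℚ, (fun j => (p j).eval ![x, 1]) = ![f.eval x, g.eval x] := by
    intro x
    funext j
    fin_cases j
    · show (hmg d f).eval ![x, 1] = f.eval x
      exact hmg_eval _ _ hfd x
    · show (hmg d g).eval ![x, 1] = g.eval x
      exact hmg_eval _ _ hgd x
  refine ⟨⌈C₁⌉₊ + ⌈C₂⁻¹⌉₊ + 1, by omega, ?_⟩
  intro x hgx
  have hC1 : C₁ ≤ ((⌈C₁⌉₊ + ⌈C₂⁻¹⌉₊ + 1 : ℕ) : ℝ) := by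
    push_cast
    have := Nat.le_ceil C₁
    have h' : (0 : ℝ) ≤ ((⌈C₂⁻¹⌉₊ : ℕ) : ℝ) := Nat.cast_nonneg _
    linarith
  have hC2 : C₂⁻¹ ≤ ((⌈C₁⌉₊ + ⌈C₂⁻¹⌉₊ + 1 : ℕ) : ℝ) := by
    push_cast
    have := Nat.le_ceil C₂⁻¹
    have h' : (0 : ℝ) ≤ ((⌈C₁⌉₊ : ℕ) : ℝ) := Nat.cast_nonneg _
    linarith
  have e1 : mulHeight (fun j => (p j).eval ![x, 1]) = (Ht (f.eval x / g.eval x) : ℝ) := by
    rw [hpx, ht_eq, mulHeight₁_div_eq_mulHeight]
  have e2 : mulHeight ![x, 1] = (Ht x : ℝ) := by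
    rw [ht_eq, mulHeight₁_eq_mulHeight]
  have a1 := H₁ ![x, 1]
  have a2 := H₂ p (hrel x)
  rw [e1, e2] at a1 a2
  constructor
  · have : ((Ht x ^ d : ℕ) : ℝ) ≤ (((⌈C₁⌉₊ + ⌈C₂⁻¹⌉₊ + 1) * Ht (f.eval x / g.eval x) : ℕ) : ℝ) := by
      rw [Nat.cast_mul, Nat.cast_pow]
      calc (Ht x : ℝ) ^ d = C₂⁻¹ * (C₂ * (Ht x : ℝ) ^ d) := by
            rw [inv_mul_cancel_left₀ (ne_of_gt hC₂)]
        _ ≤ C₂⁻¹ * (Ht (f.eval x / g.eval x) : ℝ) :=
            mul_le_mul_of_nonneg_left a2 (by positivity)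
        _ ≤ _ := mul_le_mul_of_nonneg_right hC2 (Nat.cast_nonneg _)
    exact_mod_cast this
  · have : ((Ht (f.eval x / g.eval x) : ℕ) : ℝ) ≤
        (((⌈C₁⌉₊ + ⌈C₂⁻¹⌉₊ + 1) * Ht x ^ d : ℕ) : ℝ) := by
      rw [Nat.cast_mul, Nat.cast_pow]
      exact le_trans a1 (mul_le_mul_of_nonneg_right hC1 (by positivity))
    exact_mod_cast this

end Pool.Agent.GT.OF.H38
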